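import Mathlib
import Pool.Graph.R_seed8.S12408

open MeasureTheory Metric Set
open scoped Topology Pointwise

namespace Pool.Agent.Results.MP_f4f539_co.AllDimensions

set_option autoImplicit false

abbrev E (d : ℕ) := EuclideanSpace ℝ (Fin d)

/-- `a` is the coefficient sequence of the Steiner polynomial of `K`. -/
def IsSteiner {d : ℕ} (K : Set (E d)) (a : ℕ → ℝ) : Prop :=
  ∀ ε : ℝ, 0 < ε →
    (volume (Metric.cthickening ε K)).toReal = ∑ j ∈ Finset.range (d + 1), a j * ε ^ j

lemma exists_weights (d j : ℕ) (hj : j ≤ d) : ∃ w : ℕ → ℝ, ∀ a : ℕ → ℝ,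
    a j = ∑ i ∈ Finset.range (d + 1), w i *
      ∑ l ∈ Finset.range (d + 1), a l * ((i : ℝ) + 1) ^ l := by
  set v : ℕ → ℝ := fun i => (i : ℝ) + 1 with hv
  have hvs : Set.InjOn v (Finset.range (d + 1)) := by
    intro i _ j _ hij
    simp only [hv] at hij
    exact_mod_cast add_right_cancel hij
  refine ⟨fun i => (Lagrange.basis (Finset.range (d + 1)) v i).coeff j, fun a => ?_⟩
  set P : Polynomial ℝ := ∑ l ∈ Finset.range (d + 1), Polynomial.C (a l) * Polynomial.X ^ l with hP
  have hdeg : P.degree < (Finset.range (d + 1)).card := by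
    rw [Finset.card_range]
    have h1 : P.natDegree ≤ d := by
      apply Polynomial.natDegree_sum_le_of_forall_le
      intro l hl
      exact (Polynomial.natDegree_C_mul_X_pow_le _ _).trans (by
        have := Finset.mem_range.mp hl; omega)
    refine lt_of_le_of_lt (Polynomial.degree_le_natDegree) ?_
    exact_mod_cast Nat.lt_succ_of_le h1
  have hev : ∀ t : ℝ, P.eval t = ∑ l ∈ Finset.range (d + 1), a l * t ^ l := by
    intro t
    rw [hP, Polynomial.eval_finsetSum]
    simp
  have hcoef : P.coeff j = a j := by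
    rw [hP, Polynomial.finsetSum_coeff]
    simp only [Polynomial.coeff_C_mul, Polynomial.coeff_X_pow]
    rw [Finset.sum_eq_single j]
    · simp
    · intro b _ hb
      rw [if_neg (fun h => hb h.symm), mul_zero]
    · intro h
      exact absurd (Finset.mem_range.mpr (by omega)) h
  have h1 := Lagrange.eq_interpolate hvs hdeg
  have h2 := congrArg (fun Q : Polynomial ℝ => Q.coeff j) h1
  rw [hcoef, Lagrange.interpolate_apply, Polynomial.finsetSum_coeff] at h2
  rw [h2]
  apply Finset.sum_congr rfl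
  intro i _
  rw [Polynomial.coeff_C_mul, hev, mul_comm]

lemma poly_low {d m : ℕ} (hm : m ≤ d) {a : ℕ → ℝ} {c C ε₀ : ℝ} (hε₀ : 0 < ε₀)
    (h : ∀ ε : ℝ, 0 < ε → ε < ε₀ → c * ε ^ m ≤ ∑ j ∈ Finset.range (d + 1), a j * ε ^ j ∧
      ∑ j ∈ Finset.range (d + 1), a j * ε ^ j ≤ C * ε ^ m) : c ≤ a m := by
  set P : Polynomial ℝ := ∑ l ∈ Finset.range (d + 1), Polynomial.C (a l) * Polynomial.X ^ l with hP
  have hev : ∀ t : ℝ, P.eval t = ∑ l ∈ Finset.range (d + 1), a l * t ^ l := by
    intro t
    rw [hP, Polynomial.eval_finsetSum]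
    simp
  have hcoef : P.coeff m = a m := by
    rw [hP, Polynomial.finsetSum_coeff]
    simp only [Polynomial.coeff_C_mul, Polynomial.coeff_X_pow]
    rw [Finset.sum_eq_single m]
    · simp
    · intro b _ hb
      rw [if_neg (fun h => hb h.symm), mul_zero]
    · intro h
      exact absurd (Finset.mem_range.mpr (by omega)) h
  have hdvd : ∀ j ≤ m, Polynomial.X ^ j ∣ P := by
    intro j
    induction j with
    | zero => intro _; simp
    | succ j ih =>
      intro hj
      obtain ⟨Q, hQ⟩ := ih (by omega)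
      have hQ0 : Q.eval 0 = 0 := by
        have hcont : Filter.Tendsto (fun t : ℝ => Q.eval t) (𝓝[>] 0) (𝓝 (Q.eval 0)) :=
          (Q.continuous.tendsto 0).mono_left nhdsWithin_le_nhds
        have hz : Filter.Tendsto (fun t : ℝ => Q.eval t) (𝓝[>] 0) (𝓝 0) := by
          have hlo : Filter.Tendsto (fun t : ℝ => c * t ^ (m - j)) (𝓝[>] 0) (𝓝 0) := by
            have : Continuous (fun t : ℝ => c * t ^ (m - j)) := by fun_prop
            have h2 := (this.tendsto 0).mono_left (nhdsWithin_le_nhds (s := Set.Ioi (0:ℝ)))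
            simpa [zero_pow (show m - j ≠ 0 by omega)] using h2
          have hhi : Filter.Tendsto (fun t : ℝ => C * t ^ (m - j)) (𝓝[>] 0) (𝓝 0) := by
            have : Continuous (fun t : ℝ => C * t ^ (m - j)) := by fun_prop
            have h2 := (this.tendsto 0).mono_left (nhdsWithin_le_nhds (s := Set.Ioi (0:ℝ)))
            simpa [zero_pow (show m - j ≠ 0 by omega)] using h2
          have hev2 : ∀ᶠ t : ℝ in 𝓝[>] 0, t < ε₀ ∧ 0 < t := by
            filter_upwards [Ioo_mem_nhdsGT hε₀] with t ht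
            exact ⟨ht.2, ht.1⟩
          refine tendsto_of_tendsto_of_tendsto_of_le_of_le' hlo hhi ?_ ?_
          · filter_upwards [hev2] with t ht
            have h1 := (h t ht.2 ht.1).1
            rw [← hev, hQ, Polynomial.eval_mul, Polynomial.eval_pow, Polynomial.eval_X] at h1
            have e : t ^ m = t ^ j * t ^ (m - j) := by rw [← pow_add]; congr 1; omega
            rw [e] at h1
            have htj : 0 < t ^ j := pow_pos ht.2 j
            have : t ^ j * (c * t ^ (m - j)) ≤ t ^ j * Q.eval t := by linarith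
            exact le_of_mul_le_mul_left this htj
          · filter_upwards [hev2] with t ht
            have h1 := (h t ht.2 ht.1).2
            rw [← hev, hQ, Polynomial.eval_mul, Polynomial.eval_pow, Polynomial.eval_X] at h1
            have e : t ^ m = t ^ j * t ^ (m - j) := by rw [← pow_add]; congr 1; omega
            rw [e] at h1
            have htj : 0 < t ^ j := pow_pos ht.2 j
            have : t ^ j * Q.eval t ≤ t ^ j * (C * t ^ (m - j)) := by linarith
            exact le_of_mul_le_mul_left this htj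
        exact tendsto_nhds_unique hcont hz
      have hX : Polynomial.X ∣ Q := by
        rw [Polynomial.X_dvd_iff, Polynomial.coeff_zero_eq_eval_zero]
        exact hQ0
      obtain ⟨Q', hQ'⟩ := hX
      refine ⟨Q', ?_⟩
      rw [hQ, hQ', pow_succ, mul_assoc]
  obtain ⟨Q, hQ⟩ := hdvd m le_rfl
  have hc0 : a m = Q.eval 0 := by
    rw [← hcoef, hQ, ← Polynomial.coeff_zero_eq_eval_zero]
    have := Polynomial.coeff_X_pow_mul Q m 0
    simpa using this
  have hcont : Filter.Tendsto (fun t : ℝ => Q.eval t) (𝓝[>] 0) (𝓝 (Q.eval 0)) :=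
    (Q.continuous.tendsto 0).mono_left nhdsWithin_le_nhds
  rw [hc0]
  refine ge_of_tendsto hcont ?_
  filter_upwards [Ioo_mem_nhdsGT hε₀] with t ht
  have h1 := (h t ht.1 ht.2).1
  rw [← hev, hQ, Polynomial.eval_mul, Polynomial.eval_pow, Polynomial.eval_X] at h1
  have htj : 0 < t ^ m := pow_pos ht.1 m
  have : t ^ m * c ≤ t ^ m * Q.eval t := by linarith
  exact le_of_mul_le_mul_left this htj


lemma sandwich {d : ℕ} {B : Set (E d)} (hB : IsCompact B) {K : ℕ → Set (E d)}
    (h1 : ∀ n, B ⊆ K n) {δ : ℕ → ℝ} (hδ0 : ∀ n, 0 < δ n) (hδ : Filter.Tendsto δ Filter.atTop (𝓝 0))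
    (h2 : ∀ n, K n ⊆ cthickening (δ n) B) {a : ℕ → ℝ} (ha : IsSteiner B a) (ε : ℝ) (hε : 0 < ε) :
    Filter.Tendsto (fun n => (volume (cthickening ε (K n))).toReal) Filter.atTop
      (𝓝 ((volume (cthickening ε B)).toReal)) := by
  have hup : Filter.Tendsto (fun n => ∑ j ∈ Finset.range (d + 1), a j * (ε + δ n) ^ j)
      Filter.atTop (𝓝 ((volume (cthickening ε B)).toReal)) := by
    rw [ha ε hε]
    have hc : Continuous fun t : ℝ => ∑ j ∈ Finset.range (d + 1), a j * (ε + t) ^ j := by fun_prop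
    have := (hc.tendsto 0).comp hδ
    simpa [Function.comp_def] using this
  refine tendsto_of_tendsto_of_tendsto_of_le_of_le tendsto_const_nhds hup ?_ ?_
  · intro n
    have hsub : cthickening ε B ⊆ cthickening ε (K n) := cthickening_subset_of_subset ε (h1 n)
    have hfin : volume (cthickening ε (K n)) ≠ ⊤ := by
      have hb : Bornology.IsBounded (K n) := hB.isBounded.cthickening.subset (h2 n)
      exact hb.cthickening.measure_lt_top.ne
    exact ENNReal.toReal_mono hfin (measure_mono hsub)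
  · intro n
    have hsub : cthickening ε (K n) ⊆ cthickening (ε + δ n) B :=
      (cthickening_subset_of_subset ε (h2 n)).trans
        (cthickening_cthickening_subset hε.le (hδ0 n).le B)
    have hfin : volume (cthickening (ε + δ n) B) ≠ ⊤ := hB.isBounded.cthickening.measure_lt_top.ne
    have h3 := ENNReal.toReal_mono hfin (measure_mono hsub)
    rw [ha (ε + δ n) (by linarith [hδ0 n])] at h3
    exact h3

lemma coeff_tendsto {d : ℕ} {B : Set (E d)} {K : ℕ → Set (E d)} {a : ℕ → ℝ} (ha : IsSteiner B a)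
    {b : ℕ → ℕ → ℝ} (hb : ∀ n, IsSteiner (K n) (b n))
    (h : ∀ ε : ℝ, 0 < ε → Filter.Tendsto (fun n => (volume (cthickening ε (K n))).toReal)
      Filter.atTop (𝓝 ((volume (cthickening ε B)).toReal))) (j : ℕ) (hj : j ≤ d) :
    Filter.Tendsto (fun n => b n j) Filter.atTop (𝓝 (a j)) := by
  obtain ⟨w, hw⟩ := exists_weights d j hj
  rw [hw a]
  have e : (fun n => b n j) = fun n => ∑ i ∈ Finset.range (d + 1), w i *
      ∑ l ∈ Finset.range (d + 1), b n l * ((i : ℝ) + 1) ^ l := by
    funext n; exact hw (b n)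
  rw [e]
  apply tendsto_finsetSum
  intro i _
  apply Filter.Tendsto.const_mul
  have hi : (0 : ℝ) < (i : ℝ) + 1 := by positivity
  have h1 := h _ hi
  rw [ha _ hi] at h1
  refine h1.congr fun n => ?_
  exact hb n _ hi

/-- volume of an axis-parallel box -/
lemma vol_box {d : ℕ} (l w : Fin d → ℝ) (hw : ∀ i, 0 ≤ w i) :
    (volume {x : E d | ∀ i, l i ≤ x i ∧ x i ≤ l i + w i}).toReal = ∏ i, w i := by
  have hcl : IsClosed {x : E d | ∀ i, l i ≤ x i ∧ x i ≤ l i + w i} := by
    have : {x : E d | ∀ i, l i ≤ x i ∧ x i ≤ l i + w i} =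
        ⋂ i, ({x : E d | l i ≤ x i} ∩ {x : E d | x i ≤ l i + w i}) := by
      ext x; simp
    rw [this]
    exact isClosed_iInter fun i =>
      (isClosed_le (by fun_prop) (by fun_prop)).inter (isClosed_le (by fun_prop) (by fun_prop))
  have h1 := (PiLp.volume_preserving_toLp (Fin d)).measure_preimage
    hcl.measurableSet.nullMeasurableSet
  rw [← h1]
  have e : (WithLp.toLp 2) ⁻¹' {x : E d | ∀ i, l i ≤ x i ∧ x i ≤ l i + w i} =
      Set.Icc l (fun i => l i + w i) := by
    ext y
    simp only [Set.mem_preimage, Set.mem_ofPred_eq, Set.mem_Icc, Pi.le_def]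
    exact ⟨fun h => ⟨fun i => (h i).1, fun i => (h i).2⟩, fun h i => ⟨h.1 i, h.2 i⟩⟩
  rw [e, Real.volume_Icc_pi]
  simp only [add_sub_cancel_left]
  rw [ENNReal.toReal_prod]
  exact Finset.prod_congr rfl fun i _ => ENNReal.toReal_ofReal (hw i)

lemma prod_split {d k : ℕ} (hk : k ≤ d) (A B : ℝ) :
    ∏ i : Fin d, (if (i : ℕ) < k then A else B) = A ^ k * B ^ (d - k) := by
  obtain ⟨m, rfl⟩ : ∃ m, d = k + m := ⟨d - k, by omega⟩
  rw [Fin.prod_univ_eq_prod_range (fun i => if i < k then A else B) (k + m),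
    Finset.prod_range_add]
  have e1 : ∏ x ∈ Finset.range k, (if x < k then A else B) = A ^ k := by
    rw [Finset.prod_congr rfl (g := fun _ => A)
      (fun x hx => if_pos (Finset.mem_range.mp hx))]
    simp
  have e2 : ∏ x ∈ Finset.range m, (if k + x < k then A else B) = B ^ m := by
    rw [Finset.prod_congr rfl (g := fun _ => B) (fun x _ => if_neg (by omega))]
    simp
  rw [e1, e2]
  congr 2
  omega


/-! ### The limit bodies -/

/-- the unit ball of the coordinate subspace of dimension `k` -/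
def flat (d k : ℕ) : Set (E d) := closedBall 0 1 ∩ {x | ∀ i : Fin d, k ≤ (i : ℕ) → x i = 0}

/-- half of this ball -/
def half (d k : ℕ) : Set (E d) := flat d k ∩ {x | ∀ i : Fin d, (i : ℕ) = 0 → 0 ≤ x i}

lemma isCompact_flat (d k : ℕ) : IsCompact (flat d k) := by
  apply (isCompact_closedBall (0 : E d) 1).inter_right
  have : {x : E d | ∀ i : Fin d, k ≤ (i : ℕ) → x i = 0} =
      ⋂ i : Fin d, {x : E d | k ≤ (i : ℕ) → x i = 0} := by ext x; simp
  rw [this]
  refine isClosed_iInter fun i => ?_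
  by_cases h : k ≤ (i : ℕ)
  · have e : {x : E d | k ≤ (i : ℕ) → x i = 0} = {x : E d | x i = 0} := by ext x; simp [h]
    rw [e]
    exact isClosed_eq (by fun_prop) (by fun_prop)
  · have e : {x : E d | k ≤ (i : ℕ) → x i = 0} = Set.univ := by ext x; simp [h]
    rw [e]
    exact isClosed_univ

lemma isCompact_half (d k : ℕ) : IsCompact (half d k) := by
  apply (isCompact_flat d k).inter_right
  have : {x : E d | ∀ i : Fin d, (i : ℕ) = 0 → 0 ≤ x i} =
      ⋂ i : Fin d, {x : E d | (i : ℕ) = 0 → 0 ≤ x i} := by ext x; simp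
  rw [this]
  refine isClosed_iInter fun i => ?_
  by_cases h : (i : ℕ) = 0
  · have e : {x : E d | (i : ℕ) = 0 → 0 ≤ x i} = {x : E d | 0 ≤ x i} := by ext x; simp [h]
    rw [e]
    exact isClosed_le (by fun_prop) (by fun_prop)
  · have e : {x : E d | (i : ℕ) = 0 → 0 ≤ x i} = Set.univ := by ext x; simp [h]
    rw [e]
    exact isClosed_univ

lemma convex_flat (d k : ℕ) : Convex ℝ (flat d k) := by
  apply (convex_closedBall _ _).inter
  intro x hx y hy a b _ _ _ i hi
  show a * x i + b * y i = 0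
  rw [hx i hi, hy i hi]; ring

lemma convex_half (d k : ℕ) : Convex ℝ (half d k) := by
  apply (convex_flat d k).inter
  intro x hx y hy a b ha hb _ i hi
  show 0 ≤ a * x i + b * y i
  have h1 := hx i hi
  have h2 := hy i hi
  positivity

lemma zero_mem_half (d k : ℕ) : (0 : E d) ∈ half d k := by
  refine ⟨⟨by simp, fun i _ => rfl⟩, fun i _ => le_rfl⟩

lemma coord_le_norm {d : ℕ} (z : E d) (i : Fin d) : |z i| ≤ ‖z‖ := by
  have := PiLp.norm_apply_le z i
  simpa using this

lemma norm_le_of_coord {d : ℕ} (z : E d) {η : ℝ} (hη : 0 ≤ η) (h : ∀ i, |z i| ≤ η) :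
    ‖z‖ ≤ d * η := by
  have h1 : ‖z‖ ^ 2 ≤ (d * η) ^ 2 := by
    rw [EuclideanSpace.real_norm_sq_eq]
    calc ∑ i, z i ^ 2 ≤ ∑ i : Fin d, η ^ 2 := by
          apply Finset.sum_le_sum
          intro i _
          rw [← sq_abs]
          exact pow_le_pow_left₀ (abs_nonneg _) (h i) 2
      _ = d * η ^ 2 := by simp
      _ ≤ (d * η) ^ 2 := by
          rw [mul_pow]
          have hd : (d : ℝ) ≤ (d : ℝ) ^ 2 := by
            have : d ≤ d ^ 2 := Nat.le_self_pow two_ne_zero d
            exact_mod_cast this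
          exact mul_le_mul_of_nonneg_right hd (sq_nonneg η)
  exact (pow_le_pow_iff_left₀ (norm_nonneg _) (by positivity) two_ne_zero).1 h1

lemma mem_near {d : ℕ} {K : Set (E d)} (hK : IsCompact K) {e : ℝ} (he : 0 ≤ e)
    {x : E d} (hx : x ∈ cthickening e K) : ∃ y ∈ K, ‖x - y‖ ≤ e := by
  rw [hK.cthickening_eq_biUnion_closedBall he] at hx
  simpa [dist_eq_norm] using hx

/-- the upper volume bound -/
lemma flat_upper {d k : ℕ} (hkd : k ≤ d) {ε : ℝ} (hε : 0 < ε) (hε1 : ε ≤ 1) :
    (volume (cthickening ε (flat d k))).toReal ≤ 4 ^ k * 2 ^ (d - k) * ε ^ (d - k) := by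
  set l : Fin d → ℝ := fun i => if (i : ℕ) < k then -2 else -ε with hl
  set w : Fin d → ℝ := fun i => if (i : ℕ) < k then 4 else 2 * ε with hw
  have hw0 : ∀ i, 0 ≤ w i := by
    intro i
    simp only [hw]
    split_ifs <;> positivity
  have hsub : cthickening ε (flat d k) ⊆ {x : E d | ∀ i, l i ≤ x i ∧ x i ≤ l i + w i} := by
    intro x hx i
    obtain ⟨y, hy, hxy⟩ := mem_near (isCompact_flat d k) hε.le hx
    have h1 := (coord_le_norm (x - y) i).trans hxy
    have h2 : |x i - y i| ≤ ε := h1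
    rw [abs_le] at h2
    simp only [hl, hw]
    split_ifs with h
    · have h3 : ‖y‖ ≤ 1 := by simpa using hy.1
      have h4 := (coord_le_norm y i).trans h3
      rw [abs_le] at h4
      constructor <;> linarith [h2.1, h2.2, h4.1, h4.2]
    · have h3 : y i = 0 := hy.2 i (by omega)
      rw [h3] at h2
      constructor <;> linarith [h2.1, h2.2]
  have hfin : volume {x : E d | ∀ i, l i ≤ x i ∧ x i ≤ l i + w i} ≠ ⊤ := by
    intro htop
    have h1 := vol_box l w hw0
    rw [htop, ENNReal.toReal_top] at h1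
    have h2 : 0 < ∏ i, w i := Finset.prod_pos fun i _ => by
      simp only [hw]
      split_ifs <;> positivity
    linarith
  have h1 := ENNReal.toReal_mono hfin (measure_mono hsub)
  rw [vol_box l w hw0] at h1
  refine h1.trans (le_of_eq ?_)
  rw [show (∏ i, w i) = ∏ i : Fin d, (if (i : ℕ) < k then (4 : ℝ) else 2 * ε) from rfl,
    prod_split hkd, mul_pow]
  ring

/-- the lower bound for the difference -/
lemma flat_half {d k : ℕ} (hk : 1 ≤ k) (hkd : k ≤ d) {ε : ℝ} (hε : 0 < ε)
    (hε1 : ε < 1 / (2 * d)) :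
    (1 / (2 * d)) ^ k * (2 / d) ^ (d - k) * ε ^ (d - k) +
      (volume (cthickening ε (half d k))).toReal ≤
      (volume (cthickening ε (flat d k))).toReal := by
  have hd0 : (0 : ℝ) < d := by
    have : 0 < d := by omega
    exact_mod_cast this
  set l : Fin d → ℝ := fun i => if (i : ℕ) = 0 then -(1 / d) else if (i : ℕ) < k then 0
    else -(ε / d) with hl
  set w : Fin d → ℝ := fun i => if (i : ℕ) < k then 1 / (2 * d) else 2 * ε / d with hw
  have hw0 : ∀ i, 0 ≤ w i := by
    intro i
    simp only [hw]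
    split_ifs <;> positivity
  set T : Set (E d) := {x : E d | ∀ i, l i ≤ x i ∧ x i ≤ l i + w i} with hT
  have hhalf : (1 : ℝ) / (2 * d) = 1 / d / 2 := by field_simp
  have hTsub : T ⊆ cthickening ε (flat d k) := by
    intro x hx
    set y : E d := WithLp.toLp 2 (fun i => if (i : ℕ) < k then x i else 0) with hy
    have hyi : ∀ i, y i = if (i : ℕ) < k then x i else 0 := fun i => rfl
    have h1d : 0 < 1 / (d : ℝ) := by positivity
    have hmem : y ∈ flat d k := by
      constructor
      · rw [mem_closedBall_zero_iff]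
        have := norm_le_of_coord y (η := 1 / d) (by positivity) (by
          intro i
          rw [hyi]
          have hxi := hx i
          simp only [hl, hw] at hxi
          split_ifs with h
          · simp only [if_pos h, hhalf] at hxi
            rw [abs_le]
            by_cases h0 : (i : ℕ) = 0
            · rw [if_pos h0] at hxi
              constructor <;> linarith [hxi.1, hxi.2]
            · rw [if_neg h0] at hxi
              constructor <;> linarith [hxi.1, hxi.2]
          · simp)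
        calc ‖y‖ ≤ d * (1 / d) := this
          _ = 1 := by field_simp
      · intro i hi
        rw [hyi, if_neg (by omega)]
    refine mem_cthickening_of_dist_le x y ε _ hmem ?_
    rw [dist_eq_norm]
    have := norm_le_of_coord (x - y) (η := ε / d) (by positivity) (by
      intro i
      show |x i - y i| ≤ ε / d
      rw [hyi]
      have hxi := hx i
      simp only [hl, hw] at hxi
      split_ifs with h
      · simp; positivity
      · rw [if_neg h] at hxi
        have h0 : (i : ℕ) ≠ 0 := by omega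
        rw [if_neg h0, if_neg h] at hxi
        rw [sub_zero, abs_le]
        have e : 2 * ε / d = 2 * (ε / d) := by ring
        rw [e] at hxi
        constructor <;> linarith [hxi.1, hxi.2])
    calc ‖x - y‖ ≤ d * (ε / d) := this
      _ = ε := by field_simp
  have hdisj : Disjoint T (cthickening ε (half d k)) := by
    rw [Set.disjoint_left]
    intro x hx hx'
    obtain ⟨y, hy, hxy⟩ := mem_near (isCompact_half d k) hε.le hx'
    let i0 : Fin d := ⟨0, by omega⟩
    have h1 := (coord_le_norm (x - y) i0).trans hxy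
    have h2 : |x i0 - y i0| ≤ ε := h1
    rw [abs_le] at h2
    have h3 : 0 ≤ y i0 := hy.2 i0 rfl
    have h4 := (hx i0).2
    simp only [hl, hw] at h4
    have h5 : ((i0 : Fin d) : ℕ) = 0 := rfl
    rw [if_pos h5, if_pos (by omega), hhalf] at h4
    rw [hhalf] at hε1
    linarith [h2.1]
  have hmeas : MeasurableSet (cthickening ε (half d k)) := isClosed_cthickening.measurableSet
  have hsub2 : cthickening ε (half d k) ⊆ cthickening ε (flat d k) :=
    cthickening_subset_of_subset ε Set.inter_subset_left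
  have hfin : volume (cthickening ε (flat d k)) ≠ ⊤ :=
    (isCompact_flat d k).isBounded.cthickening.measure_lt_top.ne
  have h1 : volume T + volume (cthickening ε (half d k)) ≤ volume (cthickening ε (flat d k)) := by
    rw [← measure_union hdisj hmeas]
    exact measure_mono (Set.union_subset hTsub hsub2)
  have hTfin : volume T ≠ ⊤ := ne_top_of_le_ne_top hfin (measure_mono hTsub)
  have hHfin : volume (cthickening ε (half d k)) ≠ ⊤ :=
    ne_top_of_le_ne_top hfin (measure_mono hsub2)
  have h2 := ENNReal.toReal_mono hfin h1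
  rw [ENNReal.toReal_add hTfin hHfin, vol_box l w hw0] at h2
  have h3 : ∏ i, w i = (1 / (2 * d)) ^ k * (2 / d) ^ (d - k) * ε ^ (d - k) := by
    rw [show (∏ i, w i) = ∏ i : Fin d, (if (i : ℕ) < k then 1 / (2 * (d : ℝ)) else 2 * ε / d)
      from rfl, prod_split hkd, mul_assoc, ← mul_pow]
    congr 2
    ring
  rw [h3] at h2
  exact h2

lemma coeff_lt {d k : ℕ} (hk : 1 ≤ k) (hkd : k ≤ d) {a b : ℕ → ℝ} (ha : IsSteiner (flat d k) a)
    (hb : IsSteiner (half d k) b) : b (d - k) < a (d - k) := by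
  have hd0 : (0 : ℝ) < d := by
    have : 0 < d := by omega
    exact_mod_cast this
  have h := poly_low (d := d) (m := d - k) (by omega) (a := fun j => a j - b j)
    (c := (1 / (2 * d)) ^ k * (2 / d) ^ (d - k)) (C := 4 ^ k * 2 ^ (d - k))
    (ε₀ := 1 / (2 * d)) (by positivity) (by
      intro ε hε hε1
      have e : ∑ j ∈ Finset.range (d + 1), (a j - b j) * ε ^ j =
          (volume (cthickening ε (flat d k))).toReal -
            (volume (cthickening ε (half d k))).toReal := by
        rw [ha ε hε, hb ε hε, ← Finset.sum_sub_distrib]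
        exact Finset.sum_congr rfl fun j _ => sub_mul _ _ _
      rw [e]
      have hε2 : ε ≤ 1 := by
        have : 1 / (2 * (d : ℝ)) ≤ 1 := by
          rw [div_le_one (by positivity)]
          have : (1 : ℝ) ≤ d := by
            have : 1 ≤ d := by omega
            exact_mod_cast this
          linarith
        linarith
      have h1 := flat_half hk hkd hε hε1
      have h2 := flat_upper hkd hε hε2
      have h3 : 0 ≤ (volume (cthickening ε (half d k))).toReal := ENNReal.toReal_nonneg
      constructor <;> linarith)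
  have hc : (0 : ℝ) < (1 / (2 * d)) ^ k * (2 / d) ^ (d - k) := by positivity
  linarith


/-! ### The configurations -/

noncomputable def RR (n : ℕ) : ℝ := ((n : ℝ) + 2) ^ 2 + 1
noncomputable def SS (n : ℕ) : ℝ := 2 * ((n : ℝ) + 2)
noncomputable def CC (n : ℕ) : ℝ := ((n : ℝ) + 2) ^ 2 - 1

lemma RR_pos (n : ℕ) : 0 < RR n := by unfold RR; positivity
lemma SS_pos (n : ℕ) : 0 < SS n := by unfold SS; positivity
lemma CC_pos (n : ℕ) : 0 < CC n := by
  unfold CC
  have : (0 : ℝ) ≤ n := Nat.cast_nonneg n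
  nlinarith
lemma CC_le (n : ℕ) : CC n ≤ RR n := by unfold CC RR; linarith
lemma pyth (n : ℕ) : SS n ^ 2 + CC n ^ 2 = RR n ^ 2 := by unfold SS CC RR; ring

/-- the index set of the points -/
abbrev Idx (d k : ℕ) := {i : Fin d // k ≤ (i : ℕ)} × Bool

/-- the points `± R e_i` for `k ≤ i` -/
noncomputable def pc (d k n : ℕ) (a : Idx d k) : E d :=
  EuclideanSpace.single a.1.1 (if a.2 then RR n else -RR n)

/-- the contracted points: `- R e_k` is moved to `S e_0 - C e_k` -/
noncomputable def qc (d k n : ℕ) (i0 : Fin d) (a : Idx d k) : E d :=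
  if (a.1.1 : ℕ) = k ∧ a.2 = false then
    EuclideanSpace.single i0 (SS n) + EuclideanSpace.single a.1.1 (-CC n)
  else pc d k n a

lemma inner_single' {d : ℕ} (x : E d) (i : Fin d) (t : ℝ) :
    inner ℝ x (EuclideanSpace.single i t) = t * x i := by
  rw [EuclideanSpace.inner_single_right]
  simp

lemma single_ne {d : ℕ} {i j : Fin d} (h : j ≠ i) (t : ℝ) :
    (EuclideanSpace.single i t : E d) j = 0 := by
  simp [h]

lemma single_self {d : ℕ} (i : Fin d) (t : ℝ) :
    (EuclideanSpace.single i t : E d) i = t := by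
  simp

lemma norm_pc {d k n : ℕ} (a : Idx d k) : ‖pc d k n a‖ ^ 2 = RR n ^ 2 := by
  unfold pc
  rw [PiLp.norm_single]
  split_ifs <;> simp

lemma inner_qc {d k n : ℕ} {i0 : Fin d} {a : Idx d k} (h : (a.1.1 : ℕ) = k ∧ a.2 = false)
    (x : E d) : inner ℝ x (qc d k n i0 a) = SS n * x i0 - CC n * x a.1.1 := by
  unfold qc
  rw [if_pos h, inner_add_right, inner_single', inner_single']
  ring

lemma inner_pc {d k n : ℕ} (a : Idx d k) (x : E d) :
    inner ℝ x (pc d k n a) = (if a.2 then RR n else -RR n) * x a.1.1 := by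
  unfold pc
  rw [inner_single']

lemma qc_apply {d k n : ℕ} {i0 : Fin d} {a : Idx d k} (h : (a.1.1 : ℕ) = k ∧ a.2 = false)
    (j : Fin d) : qc d k n i0 a j = (if j = i0 then SS n else 0) +
      (if j = a.1.1 then -CC n else 0) := by
  unfold qc
  rw [if_pos h]
  show (EuclideanSpace.single i0 (SS n) : E d) j + (EuclideanSpace.single a.1.1 (-CC n) : E d) j = _
  congr 1
  · by_cases hj : j = i0
    · rw [if_pos hj, hj, single_self]
    · rw [if_neg hj, single_ne hj]
  · by_cases hj : j = a.1.1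
    · rw [if_pos hj, hj, single_self]
    · rw [if_neg hj, single_ne hj]

lemma norm_qc {d k n : ℕ} (hk : 1 ≤ k) {i0 : Fin d} (hi0 : (i0 : ℕ) = 0) (a : Idx d k) :
    ‖qc d k n i0 a‖ ^ 2 = RR n ^ 2 := by
  by_cases h : (a.1.1 : ℕ) = k ∧ a.2 = false
  · rw [← real_inner_self_eq_norm_sq, inner_qc h, qc_apply h, qc_apply h]
    have hne : a.1.1 ≠ i0 := by
      intro e
      have h1 := a.1.2
      rw [e] at h1
      omega
    rw [if_pos rfl, if_neg hne.symm, if_neg hne, if_pos rfl, ← pyth n]
    ring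
  · unfold qc
    rw [if_neg h]
    exact norm_pc a

lemma inner_le {d k n : ℕ} (hk : 1 ≤ k) {i0 : Fin d} (hi0 : (i0 : ℕ) = 0) (a b : Idx d k) :
    inner ℝ (pc d k n a) (pc d k n b) ≤ inner ℝ (qc d k n i0 a) (qc d k n i0 b) := by
  have hR := RR_pos n
  have hC := CC_le n
  have key : ∀ a b : Idx d k, ((a.1.1 : ℕ) = k ∧ a.2 = false) →
      ¬ ((b.1.1 : ℕ) = k ∧ b.2 = false) →
      inner ℝ (pc d k n a) (pc d k n b) ≤ inner ℝ (qc d k n i0 a) (qc d k n i0 b) := by
    intro a b ha hb
    have e : qc d k n i0 b = pc d k n b := by unfold qc; rw [if_neg hb]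
    rw [e, inner_pc, inner_pc, qc_apply ha]
    have hne : b.1.1 ≠ i0 := by
      intro e
      have h1 := b.1.2
      rw [e] at h1
      omega
    rw [if_neg hne, zero_add]
    by_cases hab : b.1.1 = a.1.1
    · have hb2 : b.2 = true := by
        by_contra hc
        have hc' : b.2 = false := by simpa using hc
        exact hb ⟨by rw [hab]; exact ha.1, hc'⟩
      rw [if_pos hab, hb2]
      unfold pc
      rw [hab, single_self, ha.2]
      simp only [if_true, Bool.false_eq_true, if_false]
      nlinarith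
    · rw [if_neg hab]
      unfold pc
      rw [single_ne hab, mul_zero]
  by_cases ha : (a.1.1 : ℕ) = k ∧ a.2 = false
  · by_cases hb : (b.1.1 : ℕ) = k ∧ b.2 = false
    · have hab : a = b := by
        apply Prod.ext
        · apply Subtype.ext
          apply Fin.ext
          rw [ha.1, hb.1]
        · rw [ha.2, hb.2]
      rw [hab, real_inner_self_eq_norm_sq, real_inner_self_eq_norm_sq, norm_pc,
        norm_qc hk hi0]
    · exact key a b ha hb
  · by_cases hb : (b.1.1 : ℕ) = k ∧ b.2 = false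
    · rw [real_inner_comm (pc d k n b), real_inner_comm (qc d k n i0 b)]
      exact key b a hb ha
    · unfold qc
      rw [if_neg ha, if_neg hb]

lemma contraction {d k n : ℕ} (hk : 1 ≤ k) {i0 : Fin d} (hi0 : (i0 : ℕ) = 0) (a b : Idx d k) :
    dist (qc d k n i0 a) (qc d k n i0 b) ≤ dist (pc d k n a) (pc d k n b) := by
  rw [dist_eq_norm, dist_eq_norm, ← pow_le_pow_iff_left₀ (norm_nonneg _) (norm_nonneg _) two_ne_zero,
    norm_sub_sq_real, norm_sub_sq_real, norm_pc, norm_pc, norm_qc hk hi0, norm_qc hk hi0]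
  have := inner_le (n := n) hk hi0 a b
  linarith

noncomputable def rad (n : ℕ) : ℝ := √(RR n ^ 2 + 1)

lemma rad_pos (n : ℕ) : 0 < rad n := Real.sqrt_pos.2 (by positivity)

lemma mem_ball_iff {d n : ℕ} {p : E d} (hp : ‖p‖ ^ 2 = RR n ^ 2) (x : E d) :
    x ∈ closedBall p (rad n) ↔ ‖x‖ ^ 2 - 2 * inner ℝ x p ≤ 1 := by
  rw [mem_closedBall, dist_eq_norm, ← pow_le_pow_iff_left₀ (norm_nonneg _) (rad_pos n).le
    two_ne_zero, norm_sub_sq_real, hp, rad, Real.sq_sqrt (by positivity)]
  constructor <;> intro h <;> linarith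

def KP (d k n : ℕ) : Set (E d) := ⋂ a : Idx d k, closedBall (pc d k n a) (rad n)

def KQ (d k n : ℕ) (i0 : Fin d) : Set (E d) := ⋂ a : Idx d k, closedBall (qc d k n i0 a) (rad n)

lemma mem_KP {d k n : ℕ} (x : E d) : x ∈ KP d k n ↔ ∀ i : Fin d, k ≤ (i : ℕ) →
    ‖x‖ ^ 2 - 2 * (RR n * x i) ≤ 1 ∧ ‖x‖ ^ 2 + 2 * (RR n * x i) ≤ 1 := by
  unfold KP
  rw [Set.mem_iInter]
  constructor
  · intro h i hi
    have h1 := h (⟨i, hi⟩, true)
    have h2 := h (⟨i, hi⟩, false)
    rw [mem_ball_iff (norm_pc _), inner_pc] at h1 h2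
    simp only [if_true, Bool.false_eq_true, if_false] at h1 h2
    constructor <;> linarith
  · intro h a
    rw [mem_ball_iff (norm_pc _), inner_pc]
    have h1 := h a.1.1 a.1.2
    split_ifs
    · linarith [h1.1]
    · linarith [h1.2]

lemma mem_KQ {d k n : ℕ} (hk : 1 ≤ k) {i0 : Fin d} (hi0 : (i0 : ℕ) = 0) (x : E d) :
    x ∈ KQ d k n i0 ↔ ∀ i : Fin d, k ≤ (i : ℕ) →
    ‖x‖ ^ 2 - 2 * (RR n * x i) ≤ 1 ∧ (((i : ℕ) ≠ k → ‖x‖ ^ 2 + 2 * (RR n * x i) ≤ 1) ∧
      ((i : ℕ) = k → ‖x‖ ^ 2 - 2 * (SS n * x i0 - CC n * x i) ≤ 1)) := by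
  unfold KQ
  rw [Set.mem_iInter]
  constructor
  · intro h i hi
    have h1 := h (⟨i, hi⟩, true)
    have h2 := h (⟨i, hi⟩, false)
    rw [mem_ball_iff (norm_qc hk hi0 _)] at h1 h2
    refine ⟨?_, ?_, ?_⟩
    · have e : qc d k n i0 (⟨i, hi⟩, true) = pc d k n (⟨i, hi⟩, true) := by
        unfold qc
        rw [if_neg (by simp)]
      rw [e, inner_pc] at h1
      simpa using h1
    · intro hne
      have e : qc d k n i0 (⟨i, hi⟩, false) = pc d k n (⟨i, hi⟩, false) := by
        unfold qc
        rw [if_neg (fun h => hne h.1)]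
      rw [e, inner_pc] at h2
      simp only [Bool.false_eq_true, if_false] at h2
      linarith
    · intro he
      rw [inner_qc (a := (⟨i, hi⟩, false)) ⟨he, rfl⟩] at h2
      exact h2
  · intro h a
    rw [mem_ball_iff (norm_qc hk hi0 _)]
    have h1 := h a.1.1 a.1.2
    by_cases ha : (a.1.1 : ℕ) = k ∧ a.2 = false
    · rw [inner_qc ha]
      exact h1.2.2 ha.1
    · have e : qc d k n i0 a = pc d k n a := by unfold qc; rw [if_neg ha]
      rw [e, inner_pc]
      split_ifs with hb
      · exact h1.1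
      · have hb' : a.2 = false := by simpa using hb
        have := h1.2.1 (fun he => ha ⟨he, hb'⟩)
        linarith

lemma isCompact_inter {d : ℕ} {ι : Type*} [Nonempty ι] (c : ι → E d) (r : ℝ) :
    IsCompact (⋂ i, closedBall (c i) r) :=
  (isCompact_closedBall (c (Classical.arbitrary ι)) r).of_isClosed_subset
    (isClosed_iInter fun _ => isClosed_closedBall) (Set.iInter_subset _ _)

lemma convex_inter {d : ℕ} {ι : Type*} (c : ι → E d) (r : ℝ) :
    Convex ℝ (⋂ i, closedBall (c i) r) := convex_iInter fun _ => convex_closedBall _ _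

noncomputable def eta (n : ℕ) : ℝ := 2 / ((n : ℝ) + 1)

lemma flat_sub_KP {d k n : ℕ} : flat d k ⊆ KP d k n := by
  intro x hx
  rw [mem_KP]
  intro i hi
  have h0 : x i = 0 := hx.2 i hi
  have h1 : ‖x‖ ≤ 1 := by simpa using hx.1
  have h2 : ‖x‖ ^ 2 ≤ 1 := pow_le_one₀ (norm_nonneg _) h1
  rw [h0]
  constructor <;> linarith

lemma half_sub_KQ {d k n : ℕ} (hk : 1 ≤ k) {i0 : Fin d} (hi0 : (i0 : ℕ) = 0) :
    half d k ⊆ KQ d k n i0 := by
  intro x hx
  rw [mem_KQ hk hi0]
  intro i hi
  have h0 : x i = 0 := hx.1.2 i hi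
  have h1 : ‖x‖ ≤ 1 := by simpa using hx.1.1
  have h2 : ‖x‖ ^ 2 ≤ 1 := pow_le_one₀ (norm_nonneg _) h1
  have h3 : 0 ≤ x i0 := hx.2 i0 hi0
  have h4 : 0 ≤ SS n * x i0 := mul_nonneg (SS_pos n).le h3
  rw [h0]
  refine ⟨by linarith, fun _ => by linarith, fun _ => by linarith⟩

lemma norm_le_of_sub {d : ℕ} (x y : E d) (h : ∀ i, |y i| ≤ |x i|) : ‖y‖ ≤ ‖x‖ := by
  rw [← pow_le_pow_iff_left₀ (norm_nonneg _) (norm_nonneg _) two_ne_zero,
    EuclideanSpace.real_norm_sq_eq, EuclideanSpace.real_norm_sq_eq]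
  apply Finset.sum_le_sum
  intro i _
  rw [← sq_abs (y i), ← sq_abs (x i)]
  exact pow_le_pow_left₀ (abs_nonneg _) (h i) 2

lemma eta_bounds (n : ℕ) : 1 / (2 * RR n) ≤ eta n ∧ 1 / SS n ≤ eta n ∧
    (1 + 2 * SS n) / (2 * CC n) ≤ eta n ∧ 0 < eta n := by
  have hn : (0 : ℝ) ≤ n := Nat.cast_nonneg n
  have hC := CC_pos n
  have hR := RR_pos n
  have hS := SS_pos n
  refine ⟨?_, ?_, ?_, ?_⟩
  · unfold eta
    rw [div_le_div_iff₀ (by positivity) (by positivity)]
    unfold RR
    nlinarith
  · unfold eta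
    rw [div_le_div_iff₀ (by positivity) (by positivity)]
    unfold SS
    nlinarith
  · unfold eta
    rw [div_le_div_iff₀ (by positivity) (by positivity)]
    unfold SS CC
    nlinarith
  · unfold eta; positivity


lemma KP_sub {d k n : ℕ} (hkd : k + 2 ≤ d) :
    KP d k n ⊆ cthickening (d * eta n) (flat d k) := by
  intro x hx
  rw [mem_KP] at hx
  obtain ⟨e1, e2, e3, e4⟩ := eta_bounds n
  have hR := RR_pos n
  have hx1 := hx ⟨k, by omega⟩ le_rfl
  have hn : ‖x‖ ^ 2 ≤ 1 := by linarith [hx1.1, hx1.2]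
  have hn1 : ‖x‖ ≤ 1 := by
    by_contra hc
    push Not at hc
    nlinarith
  set y : E d := WithLp.toLp 2 (fun i => if (i : ℕ) < k then x i else 0) with hy
  have hyi : ∀ i, y i = if (i : ℕ) < k then x i else 0 := fun i => rfl
  have hmem : y ∈ flat d k := by
    constructor
    · rw [mem_closedBall_zero_iff]
      refine (norm_le_of_sub x y fun i => ?_).trans hn1
      rw [hyi]
      split_ifs
      · exact le_rfl
      · simp
    · intro i hi
      rw [hyi, if_neg (by omega)]
  refine mem_cthickening_of_dist_le x y _ _ hmem ?_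
  rw [dist_eq_norm]
  refine norm_le_of_coord (x - y) e4.le fun i => ?_
  show |x i - y i| ≤ eta n
  rw [hyi]
  split_ifs with h
  · rw [sub_self, abs_zero]; exact e4.le
  · rw [sub_zero]
    have h1 := hx i (by omega)
    have h2 : RR n * |x i| ≤ 1 / 2 := by
      rcases abs_cases (x i) with ⟨h3, _⟩ | ⟨h3, _⟩ <;> rw [h3] <;>
        nlinarith [h1.1, h1.2, sq_nonneg ‖x‖]
    refine le_trans ?_ e1
    rw [le_div_iff₀ (by positivity)]
    linarith

lemma KQ_sub {d k n : ℕ} (hk : 1 ≤ k) (hkd : k + 2 ≤ d) {i0 : Fin d} (hi0 : (i0 : ℕ) = 0) :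
    KQ d k n i0 ⊆ cthickening (d * eta n) (half d k) := by
  intro x hx
  rw [mem_KQ hk hi0] at hx
  obtain ⟨e1, e2, e3, e4⟩ := eta_bounds n
  have hR := RR_pos n
  have hS := SS_pos n
  have hC := CC_pos n
  have hCR := CC_le n
  -- the coordinate `k + 1`
  have hx1 := hx ⟨k + 1, by omega⟩ (by simp)
  have hx1' := hx1.2.1 (by simp)
  have hn : ‖x‖ ^ 2 ≤ 1 := by linarith [hx1.1]
  have hn1 : ‖x‖ ≤ 1 := by
    by_contra hc
    push Not at hc
    nlinarith
  -- the coordinate `k`
  have hx0 := hx ⟨k, by omega⟩ le_rfl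
  have hx0' := hx0.2.2 rfl
  set t : ℝ := x ⟨k, by omega⟩ with ht
  have hx00 : x i0 ≤ 1 := (le_abs_self _).trans ((coord_le_norm x i0).trans hn1)
  have hsq := sq_nonneg ‖x‖
  have hRt : -(1 / 2) ≤ RR n * t := by linarith [hx0.1]
  have hCt : CC n * t ≤ 1 / 2 + SS n * x i0 := by linarith
  have hCt2 : CC n * t ≤ 1 / 2 + SS n := by nlinarith
  have hCt3 : -(1 / 2) ≤ CC n * t := by
    rcases le_total 0 t with h | h
    · have := mul_nonneg hC.le h
      linarith
    · have : RR n * t ≤ CC n * t := by nlinarith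
      linarith
  have hSx : -1 ≤ SS n * x i0 := by linarith
  have ht1 : |t| ≤ eta n := by
    rw [abs_le]
    constructor
    · have h1 : -(1 / (2 * RR n)) ≤ t := by
        rw [neg_le, ← mul_le_mul_iff_right₀ (show 0 < 2 * RR n by positivity)]
        have e : 2 * RR n * (1 / (2 * RR n)) = 1 := by field_simp
        rw [e]
        linarith
      linarith
    · have h1 : t ≤ (1 + 2 * SS n) / (2 * CC n) := by
        rw [le_div_iff₀ (by positivity)]
        linarith
      linarith
  have hxi0 : -eta n ≤ x i0 := by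
    have h1 : -(1 / SS n) ≤ x i0 := by
      rw [neg_le, ← mul_le_mul_iff_right₀ hS]
      have e : SS n * (1 / SS n) = 1 := by field_simp
      rw [e]
      linarith
    linarith
  set y : E d := WithLp.toLp 2 (fun i => if (i : ℕ) = 0 then max (x i) 0 else
    if (i : ℕ) < k then x i else 0) with hy
  have hyi : ∀ i, y i = if (i : ℕ) = 0 then max (x i) 0 else
    if (i : ℕ) < k then x i else 0 := fun i => rfl
  have hmem : y ∈ half d k := by
    refine ⟨⟨?_, ?_⟩, ?_⟩
    · rw [mem_closedBall_zero_iff]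
      refine (norm_le_of_sub x y fun i => ?_).trans hn1
      rw [hyi]
      split_ifs
      · rw [abs_of_nonneg (le_max_right _ _)]
        exact max_le (le_abs_self _) (abs_nonneg _)
      · exact le_rfl
      · simp
    · intro i hi
      rw [hyi, if_neg (by omega), if_neg (by omega)]
    · intro i hi
      rw [hyi, if_pos hi]
      exact le_max_right _ _
  refine mem_cthickening_of_dist_le x y _ _ hmem ?_
  rw [dist_eq_norm]
  refine norm_le_of_coord (x - y) e4.le fun i => ?_
  show |x i - y i| ≤ eta n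
  rw [hyi]
  split_ifs with h0 h
  · have hii : i = i0 := Fin.ext (by rw [h0, hi0])
    rw [hii]
    rcases le_total 0 (x i0) with h | h
    · rw [max_eq_left h, sub_self, abs_zero]; exact e4.le
    · rw [max_eq_right h, sub_zero, abs_of_nonpos h]; linarith
  · rw [sub_self, abs_zero]; exact e4.le
  · rw [sub_zero]
    by_cases hik : (i : ℕ) = k
    · have : i = ⟨k, by omega⟩ := Fin.ext hik
      rw [this]
      exact ht1
    · have h1 := hx i (by omega)
      have h1' := h1.2.1 hik
      have h2 : RR n * |x i| ≤ 1 / 2 := by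
        rcases abs_cases (x i) with ⟨h3, _⟩ | ⟨h3, _⟩ <;> rw [h3] <;>
          nlinarith [h1.1, h1', sq_nonneg ‖x‖]
      refine le_trans ?_ e1
      rw [le_div_iff₀ (by positivity)]
      linarith

lemma eta_tendsto (d : ℕ) : Filter.Tendsto (fun n : ℕ => (d : ℝ) * eta n) Filter.atTop (𝓝 0) := by
  have h1 : Filter.Tendsto (fun n : ℕ => eta n) Filter.atTop (𝓝 0) := by
    have := (tendsto_one_div_add_atTop_nhds_zero_nat (𝕜 := ℝ)).const_mul 2
    simp only [mul_zero] at this
    refine this.congr fun n => ?_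
    unfold eta
    ring
  simpa using h1.const_mul (d : ℝ)

theorem core {d k : ℕ} (hk : 1 ≤ k) (hkd : k + 2 ≤ d) (i0 : Fin d) (hi0 : (i0 : ℕ) = 0) :
    ∃ n : ℕ, ∃ a b : ℕ → ℝ, IsSteiner (KP d k n) a ∧ IsSteiner (KQ d k n i0) b ∧
      b (d - k) < a (d - k) := by
  have hne : Nonempty (Idx d k) := ⟨(⟨⟨k, by omega⟩, le_rfl⟩, true)⟩
  have hd0 : (0 : ℝ) < d := by
    have : 0 < d := by omega
    exact_mod_cast this
  obtain ⟨α, hα⟩ := Pool.Agent.S12408.steiner (isCompact_flat d k) (convex_flat d k)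
    ⟨0, (zero_mem_half d k).1⟩
  obtain ⟨β, hβ⟩ := Pool.Agent.S12408.steiner (isCompact_half d k) (convex_half d k)
    ⟨0, zero_mem_half d k⟩
  have hP : ∀ n, ∃ a : ℕ → ℝ, IsSteiner (KP d k n) a := fun n =>
    Pool.Agent.S12408.steiner (isCompact_inter _ _) (convex_inter _ _)
      ⟨0, flat_sub_KP (zero_mem_half d k).1⟩
  have hQ : ∀ n, ∃ a : ℕ → ℝ, IsSteiner (KQ d k n i0) a := fun n =>
    Pool.Agent.S12408.steiner (isCompact_inter _ _) (convex_inter _ _)
      ⟨0, half_sub_KQ hk hi0 (zero_mem_half d k)⟩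
  choose a ha using hP
  choose b hb using hQ
  have hlt : β (d - k) < α (d - k) := coeff_lt hk (by omega) hα hβ
  have hpos : ∀ n, 0 < (d : ℝ) * eta n := fun n => mul_pos hd0 (eta_bounds n).2.2.2
  have h1 := coeff_tendsto hα ha (sandwich (isCompact_flat d k) (fun n => flat_sub_KP) hpos
    (eta_tendsto d) (fun n => KP_sub hkd) hα) (d - k) (by omega)
  have h2 := coeff_tendsto hβ hb (sandwich (isCompact_half d k) (fun n => half_sub_KQ hk hi0) hpos
    (eta_tendsto d) (fun n => KQ_sub hk hkd hi0) hβ) (d - k) (by omega)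
  obtain ⟨n, hn⟩ := (h2.eventually_lt h1 hlt).exists
  exact ⟨n, a n, b n, ha n, hb n, hn⟩


lemma steiner_smul {d : ℕ} {K : Set (E d)} (hK : IsCompact K) {a : ℕ → ℝ} (ha : IsSteiner K a)
    {t : ℝ} (ht : 0 < t) : IsSteiner (t • K) (fun j => t ^ (d - j) * a j) := by
  intro ε hε
  have hε' : 0 < ε / t := by positivity
  have e1 : cthickening ε (t • K) = t • cthickening (ε / t) K := by
    have hK' : IsCompact (t • K) := hK.smul t
    rw [← hK'.add_closedBall_zero hε.le, ← hK.add_closedBall_zero hε'.le,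
      smul_add, smul_closedBall' ht.ne', smul_zero, Real.norm_of_nonneg ht.le,
      mul_div_cancel₀ _ ht.ne']
  rw [e1, Measure.addHaar_smul_of_nonneg _ ht.le, finrank_euclideanSpace_fin, ENNReal.toReal_mul,
    ENNReal.toReal_ofReal (by positivity), ha _ hε', Finset.mul_sum]
  apply Finset.sum_congr rfl
  intro j hj
  have hj' : j ≤ d := by
    have := Finset.mem_range.mp hj
    omega
  have e2 : t ^ d = t ^ (d - j) * t ^ j := by rw [← pow_add]; congr 1; omega
  rw [e2, div_pow]
  field_simp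

/-- The volume `κ_j` of the unit ball of `ℝ^j`. -/
noncomputable def kappa (j : ℕ) : ℝ :=
  (volume (Metric.closedBall (0 : EuclideanSpace ℝ (Fin j)) 1)).toReal

/-- `V 0, ..., V d` are the intrinsic volumes of `K`: Steiner's formula
`vol (K + ρ B) = ∑ k, κ_{d-k} V_k ρ ^ (d - k)` holds for all `ρ > 0`. -/
def IsIntrinsicVolumes {d : ℕ} (K : Set (EuclideanSpace ℝ (Fin d))) (V : ℕ → ℝ) : Prop :=
  ∀ ρ : ℝ, 0 < ρ → (volume (Metric.cthickening ρ K)).toReal =
    ∑ k ∈ Finset.range (d + 1), kappa (d - k) * V k * ρ ^ (d - k)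

lemma kappa_pos (j : ℕ) : 0 < kappa j := by
  unfold kappa
  apply ENNReal.toReal_pos
  · have h := Metric.measure_ball_pos volume (0 : EuclideanSpace ℝ (Fin j)) one_pos
    exact (lt_of_lt_of_le h (measure_mono ball_subset_closedBall)).ne'
  · exact (isCompact_closedBall _ _).measure_lt_top.ne

lemma iv_exists {d : ℕ} {K : Set (E d)} {a : ℕ → ℝ} (ha : IsSteiner K a) :
    IsIntrinsicVolumes K (fun k => a (d - k) / kappa (d - k)) := by
  intro ρ hρ
  rw [ha ρ hρ, ← Finset.sum_flip]
  apply Finset.sum_congr rfl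
  intro j _
  have := (kappa_pos (d - j)).ne'
  field_simp

lemma iv_unique {d : ℕ} {K : Set (E d)} {a : ℕ → ℝ} (ha : IsSteiner K a) {V : ℕ → ℝ}
    (hV : IsIntrinsicVolumes K V) {k : ℕ} (hk : k ≤ d) : kappa (d - k) * V k = a (d - k) := by
  have h1 : IsSteiner K (fun j => kappa j * V (d - j)) := by
    intro ρ hρ
    rw [hV ρ hρ, ← Finset.sum_flip]
    apply Finset.sum_congr rfl
    intro j hj
    have hj' : j ≤ d := by
      have := Finset.mem_range.mp hj
      omega
    rw [Nat.sub_sub_self hj']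
  obtain ⟨w, hw⟩ := exists_weights d (d - k) (by omega)
  have h2 := hw a
  have h3 := hw (fun j => kappa j * V (d - j))
  have e : ∀ i : ℕ, ∑ l ∈ Finset.range (d + 1), a l * ((i : ℝ) + 1) ^ l =
      ∑ l ∈ Finset.range (d + 1), (kappa l * V (d - l)) * ((i : ℝ) + 1) ^ l := by
    intro i
    rw [← ha _ (by positivity), ← h1 _ (by positivity)]
  simp only [e] at h2
  simp only [Nat.sub_sub_self hk] at h3
  rw [h2, h3]

lemma card_idx {d k : ℕ} (hkd : k ≤ d) : Fintype.card (Idx d k) = 2 * (d - k) := by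
  have h1 : Fintype.card {i : Fin d // k ≤ (i : ℕ)} = d - k := by
    let f : {i : Fin d // k ≤ (i : ℕ)} ≃ Fin (d - k) :=
      { toFun := fun i => ⟨i.1.1 - k, by have := i.1.2; have := i.2; omega⟩
        invFun := fun j => ⟨⟨j.1 + k, by have := j.2; omega⟩, by simp⟩
        left_inv := fun i => by
          apply Subtype.ext
          apply Fin.ext
          have := i.2
          simp only
          omega
        right_inv := fun j => by
          apply Fin.ext
          simp }
    rw [Fintype.card_congr f, Fintype.card_fin]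
  rw [Fintype.card_prod, h1, Fintype.card_bool, mul_comm]

/-- **All dimensions, all `k ≤ d - 2`, all radii.** Let `d ≥ 3`, `1 ≤ k ≤ d - 2`, `r > 0` and
`N ≥ 2 (d - k)`. There are `p_1, ..., p_N` in `ℝ^d` and a contraction `q_1, ..., q_N` of them such
that the ball polyhedra `P^r`, `Q^r` satisfy `V_k (P^r) > V_k (Q^r)`. -/
theorem result (d k N : ℕ) (r : ℝ) (hk : 1 ≤ k) (hkd : k + 2 ≤ d) (hN : 2 * (d - k) ≤ N)
    (hr : 0 < r) :
    ∃ p q : Fin N → EuclideanSpace ℝ (Fin d),
      (∀ i j, dist (q i) (q j) ≤ dist (p i) (p j)) ∧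
      (∃ V, IsIntrinsicVolumes (⋂ i, Metric.closedBall (p i) r) V) ∧
      (∃ W, IsIntrinsicVolumes (⋂ i, Metric.closedBall (q i) r) W) ∧
      ∀ V W : ℕ → ℝ, IsIntrinsicVolumes (⋂ i, Metric.closedBall (p i) r) V →
        IsIntrinsicVolumes (⋂ i, Metric.closedBall (q i) r) W → W k < V k := by
  classical
  let i0 : Fin d := ⟨0, by omega⟩
  have hi0 : (i0 : ℕ) = 0 := rfl
  have hne : Nonempty (Idx d k) := ⟨(⟨⟨k, by omega⟩, le_rfl⟩, true)⟩
  obtain ⟨n, a, b, ha, hb, hab⟩ := core hk hkd i0 hi0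
  have hrad := rad_pos n
  set t : ℝ := r / rad n with ht
  have htpos : 0 < t := by positivity
  have htr : t * rad n = r := by rw [ht]; field_simp
  obtain ⟨e⟩ := Function.Embedding.nonempty_of_card_le
    (show Fintype.card (Idx d k) ≤ Fintype.card (Fin N) by
      rw [card_idx (by omega), Fintype.card_fin]; exact hN)
  set g : Fin N → Idx d k := Function.invFun e with hg
  have hgs : Function.Surjective g := Function.invFun_surjective e.injective
  have hinter : ∀ c : Idx d k → E d, (⋂ i : Fin N, closedBall (t • c (g i)) r) =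
      t • ⋂ a : Idx d k, closedBall (c a) (rad n) := by
    intro c
    have h0 : t • (⋂ a : Idx d k, closedBall (c a) (rad n)) =
        ⋂ a : Idx d k, t • closedBall (c a) (rad n) := by
      ext x
      rw [Set.mem_smul_set_iff_inv_smul_mem₀ htpos.ne', Set.mem_iInter, Set.mem_iInter]
      exact forall_congr' fun a => (Set.mem_smul_set_iff_inv_smul_mem₀ htpos.ne' _ _).symm
    rw [h0]
    have h1 : ∀ a : Idx d k, t • closedBall (c a) (rad n) = closedBall (t • c a) r := by
      intro a
      rw [smul_closedBall' htpos.ne', Real.norm_of_nonneg htpos.le, htr]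
    simp only [h1]
    exact hgs.iInter_comp (fun a => closedBall (t • c a) r)
  have hP := steiner_smul (isCompact_inter (pc d k n) (rad n)) ha htpos
  have hQ := steiner_smul (isCompact_inter (qc d k n i0) (rad n)) hb htpos
  rw [← hinter (pc d k n)] at hP
  rw [← hinter (qc d k n i0)] at hQ
  refine ⟨fun i => t • pc d k n (g i), fun i => t • qc d k n i0 (g i), ?_,
    ⟨_, iv_exists hP⟩, ⟨_, iv_exists hQ⟩, ?_⟩
  · intro i j
    rw [dist_smul₀, dist_smul₀]
    exact mul_le_mul_of_nonneg_left (contraction hk hi0 _ _) (norm_nonneg _)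
  · intro V W hV hW
    have h1 := iv_unique hP hV (k := k) (by omega)
    have h2 := iv_unique hQ hW (k := k) (by omega)
    have hlt : t ^ (d - (d - k)) * b (d - k) < t ^ (d - (d - k)) * a (d - k) :=
      mul_lt_mul_of_pos_left hab (pow_pos htpos _)
    rw [← h1, ← h2] at hlt
    exact lt_of_mul_lt_mul_left hlt (kappa_pos _).le

end Pool.Agent.Results.MP_f4f539_co.AllDimensions
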